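import Mathlib

set_option autoImplicit false
open Filter Topology NormedSpace Complex

namespace Pool.Agent.H.MP_24fbf1_an

section alg
variable {A : Type} [CStarAlgebra A]

lemma unit_exp {X : A} (hX : IsSelfAdjoint X) (t : ℝ) : exp (t • (I • X)) ∈ unitary A := by
  have h : IsSelfAdjoint (t • X) := (IsSelfAdjoint.all t).smul hX
  have := (selfAdjoint.expUnitary ⟨t • X, h⟩).prop
  rw [smul_comm]
  exact this

lemma duhamel {P Q X Y : A} (hX : IsSelfAdjoint X) (hY : IsSelfAdjoint Y)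
    (h1 : X * P = 1) (h1' : P * X = 1) (h2 : Q * Y = 1) (h2' : Y * Q = 1) (c : ℝ) (hc : |c| = 1) :
    ‖Q * (exp (c • (I • X)) - exp (c • (I • Y))) * P‖ ≤ ‖P - Q‖ := by
  let φ : ℝ → A := fun s => Q * exp ((c - s) • (I • Y)) * exp (s • (I • X)) * P
  have hd : ∀ s : ℝ, HasDerivAt φ
      (exp ((c - s) • (I • Y)) * (I • (Q - P)) * exp (s • (I • X))) s := by
    intro s
    have a1 : HasDerivAt (fun s : ℝ => exp ((c - s) • (I • Y)))
        ((-1 : ℝ) • (exp ((c - s) • (I • Y)) * (I • Y))) s :=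
      (hasDerivAt_exp_smul_const (𝕂 := ℝ) (I • Y) (c - s)).scomp s
        ((hasDerivAt_id s).const_sub c)
    have a2 := hasDerivAt_exp_smul_const' (𝕂 := ℝ) (I • X) s
    have a3 := ((a1.const_mul Q).mul a2).mul_const P
    have c1 : Commute Q (exp ((c - s) • (I • Y))) := by
      refine Commute.exp_right ?_
      exact (Commute.smul_right (show Commute Q Y from h2.trans h2'.symm) _).smul_right _
    have c2 : Commute (exp (s • (I • X))) P := by
      refine Commute.exp_left ?_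
      exact (Commute.smul_left (show Commute X P from h1.trans h1'.symm) _).smul_left _
    refine a3.congr_deriv (Eq.symm ?_)
    set U := exp ((c - s) • (I • Y))
    set V := exp (s • (I • X))
    have e1 : Q * U * Y * V * P = U * P * V := by
      rw [c1.eq, mul_assoc U Q Y, h2, mul_one, mul_assoc, c2.eq, mul_assoc]
    have e2 : Q * U * X * V * P = U * Q * V := by
      rw [c1.eq, mul_assoc _ V P, c2.eq, ← mul_assoc, mul_assoc _ X P, h1, mul_one]
    simp only [neg_smul, one_smul, mul_neg, neg_mul, mul_smul_comm, smul_mul_assoc, add_mul,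
      mul_sub, sub_mul, smul_sub, ← mul_assoc, e1, e2]
    abel
  have hb : ∀ s : ℝ, ‖exp ((c - s) • (I • Y)) * (I • (Q - P)) * exp (s • (I • X))‖ ≤ ‖P - Q‖ := by
    intro s
    rw [CStarRing.norm_mul_mem_unitary _ (unit_exp hX s),
      CStarRing.norm_mem_unitary_mul _ (unit_exp hY _), norm_smul, norm_I, one_mul, norm_sub_rev]
  have := convex_univ.norm_image_sub_le_of_norm_hasDerivWithin_le
    (fun s _ => (hd s).hasDerivWithinAt) (fun s _ => hb s) (Set.mem_univ 0) (Set.mem_univ c)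
  simp only [φ, sub_self, zero_smul, NormedSpace.exp_zero, mul_one, sub_zero, Real.norm_eq_abs, hc] at this
  rwa [mul_sub, sub_mul]

lemma three {P Q X Y : A} (hX : IsSelfAdjoint X) (hY : IsSelfAdjoint Y)
    (h1 : X * P = 1) (h1' : P * X = 1) (h2 : Q * Y = 1) (h2' : Y * Q = 1) (c : ℝ) (hc : |c| = 1)
    (hP : ‖P‖ ≤ 2) (hQ : ‖Q‖ ≤ 2) :
    ‖P * P * exp (c • (I • X)) - Q * Q * exp (c • (I • Y))‖ ≤ 5 * ‖P - Q‖ := by
  have c1 : Commute Q (exp (c • (I • Y))) := by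
    refine Commute.exp_right ?_
    exact (Commute.smul_right (show Commute Q Y from h2.trans h2'.symm) _).smul_right _
  have c2 : Commute (exp (c • (I • X))) P := by
    refine Commute.exp_left ?_
    exact (Commute.smul_left (show Commute X P from h1.trans h1'.symm) _).smul_left _
  have hd := duhamel hX hY h1 h1' h2 h2' c hc
  have u1 := unit_exp hX c
  have u2 := unit_exp hY c
  set U := exp (c • (I • X))
  set V := exp (c • (I • Y))
  have e : P * P * U - Q * Q * V = (P - Q) * U * P + Q * (U - V) * P + Q * (V * (P - Q)) := by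
    rw [mul_assoc P P U, ← c2.eq, mul_assoc Q Q V, c1.eq]
    noncomm_ring
  have b1 : ‖(P - Q) * U * P‖ ≤ ‖P - Q‖ * 2 := by
    refine (norm_mul_le _ _).trans ?_
    rw [CStarRing.norm_mul_mem_unitary _ u1]
    exact mul_le_mul_of_nonneg_left hP (norm_nonneg _)
  have b2 : ‖Q * (V * (P - Q))‖ ≤ 2 * ‖P - Q‖ := by
    refine (norm_mul_le _ _).trans ?_
    rw [CStarRing.norm_mem_unitary_mul _ u2]
    exact mul_le_mul_of_nonneg_right hQ (norm_nonneg _)
  rw [e]
  refine (norm_add₃_le).trans ?_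
  linarith

lemma cfc_sin {X : A} (hX : IsSelfAdjoint X) :
    cfc Real.sin X = (I / 2) • (exp ((-1 : ℝ) • (I • X)) - exp ((1 : ℝ) • (I • X))) := by
  have hn : IsStarNormal X := hX.isStarNormal
  rw [cfc_real_eq_complex Real.sin hX]
  have e1 : ∀ c : ℂ, cfc (fun z : ℂ => Complex.exp (c * z)) X = exp (c • X) := by
    intro c
    rw [cfc_comp_const_mul c Complex.exp X, CFC.complex_exp_eq_normedSpace_exp]
  rw [one_smul, neg_smul, one_smul, ← neg_smul, ← e1, ← e1, ← cfc_sub _ _ X, ← cfc_const_mul _ _ X]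
  refine cfc_congr fun z hz => ?_
  have := hX.mem_spectrum_eq_re hz
  simp only [ofReal_sin]
  rw [← this, Complex.sin]
  ring_nf

noncomputable def h (x : ℝ) : ℝ := x ^ 2 * Real.sin x⁻¹

lemma h_deriv {x : ℝ} (hx : x ≠ 0) :
    HasDerivAt h (2 * x * Real.sin x⁻¹ - Real.cos x⁻¹) x := by
  have := (hasDerivAt_pow 2 x).mul (hasDerivAt_inv hx).sin
  refine this.congr_deriv ?_
  simp only [Nat.cast_ofNat, Nat.add_one_sub_one, pow_one]
  field_simp
  ring

lemma h_deriv0 : HasDerivAt h 0 0 := by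
  rw [hasDerivAt_iff_tendsto_slope_zero]
  refine squeeze_zero_norm (a := fun t : ℝ => |t|) (fun t => ?_) ?_
  · by_cases ht : t = 0
    · simp [ht]
    · have : t⁻¹ • (h (0 + t) - h 0) = t * Real.sin t⁻¹ := by
        simp [h]; field_simp
      rw [this, Real.norm_eq_abs, abs_mul]
      exact mul_le_of_le_one_right (abs_nonneg _) (Real.abs_sin_le_one _)
  · have : Tendsto (fun t : ℝ => |t|) (𝓝 0) (𝓝 |0|) := continuous_abs.tendsto 0
    simpa using this.mono_left nhdsWithin_le_nhds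

lemma h_cont : Continuous h := by
  refine continuous_iff_continuousAt.2 fun x => ?_
  by_cases hx : x = 0
  · rw [hx]; exact h_deriv0.continuousAt
  · exact (h_deriv hx).continuousAt

lemma pack {a : A} (ha : IsSelfAdjoint a) (hs : spectrum ℝ a ⊆ Set.Icc 0 1) {ε : ℝ} (hε : 0 < ε)
    (hε1 : ε ≤ 1) :
    ∃ X : A, IsSelfAdjoint X ∧ X * (a + algebraMap ℝ A ε) = 1 ∧ (a + algebraMap ℝ A ε) * X = 1 ∧
      ‖a + algebraMap ℝ A ε‖ ≤ 2 ∧ cfc (fun x => h (x + ε)) a =
        (a + algebraMap ℝ A ε) * (a + algebraMap ℝ A ε) * cfc Real.sin X := by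
  have hne : ∀ x ∈ spectrum ℝ a, x + ε ≠ 0 := fun x hx => by linarith [(hs hx).1]
  have hc : ContinuousOn (fun x : ℝ => (x + ε)⁻¹) (spectrum ℝ a) :=
    ContinuousOn.inv₀ (by fun_prop) hne
  have hc1 : ContinuousOn (fun x : ℝ => x + ε) (spectrum ℝ a) := by fun_prop
  have e : a + algebraMap ℝ A ε = cfc (fun x : ℝ => x + ε) a := by
    rw [cfc_add_const ε (fun x : ℝ => x) a, cfc_id' ℝ a]
  refine ⟨cfc (fun x : ℝ => (x + ε)⁻¹) a, cfc_predicate _ _, ?_, ?_, ?_, ?_⟩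
  · rw [e, ← cfc_mul _ _ a hc hc1, ← cfc_one ℝ a]
    exact cfc_congr fun x hx => inv_mul_cancel₀ (hne x hx)
  · rw [e, ← cfc_mul _ _ a hc1 hc, ← cfc_one ℝ a]
    exact cfc_congr fun x hx => mul_inv_cancel₀ (hne x hx)
  · rw [e]
    refine norm_cfc_le (by norm_num) fun x hx => ?_
    rw [Real.norm_eq_abs, abs_le]
    constructor <;> linarith [(hs hx).1, (hs hx).2]
  · have hc2 : ContinuousOn (fun x : ℝ => Real.sin (x + ε)⁻¹) (spectrum ℝ a) :=
      Real.continuous_sin.comp_continuousOn hc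
    rw [e, ← cfc_comp' Real.sin _ a Real.continuous_sin.continuousOn hc ha,
      ← cfc_mul _ _ a hc1 hc1, ← cfc_mul _ _ a (hc1.fun_mul hc1) hc2]
    refine cfc_congr fun x _ => ?_
    simp [h, sq]

lemma h_eps {a b : A} (ha : IsSelfAdjoint a) (hs : spectrum ℝ a ⊆ Set.Icc 0 1)
    (hb : IsSelfAdjoint b) (ht : spectrum ℝ b ⊆ Set.Icc 0 1) {ε : ℝ} (hε : 0 < ε) (hε1 : ε ≤ 1) :
    ‖cfc (fun x => h (x + ε)) a - cfc (fun x => h (x + ε)) b‖ ≤ 5 * ‖a - b‖ := by
  obtain ⟨X, hX, h1, h1', hP, e1⟩ := pack ha hs hε hε1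
  obtain ⟨Y, hY, h2', h2, hQ, e2⟩ := pack hb ht hε hε1
  have t1 := three hX hY h1 h1' h2 h2' (-1) (by simp) hP hQ
  have t2 := three hX hY h1 h1' h2 h2' 1 (by simp) hP hQ
  rw [add_sub_add_right_eq_sub] at t1 t2
  rw [e1, e2, cfc_sin hX, cfc_sin hY, mul_smul_comm, mul_smul_comm, ← smul_sub, norm_smul,
    mul_sub, mul_sub, sub_sub_sub_comm]
  have := norm_sub_le_of_le t1 t2
  have h3 : ‖I / 2‖ = 1 / 2 := by simp
  rw [h3]
  linarith

lemma h_lim {a : A} (hs : spectrum ℝ a ⊆ Set.Icc 0 1) :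
    Tendsto (fun ε : ℝ => cfc (fun x => h (x + ε)) a) (𝓝[>] 0) (𝓝 (cfc h a)) := by
  refine tendsto_cfc_fun ?_ (Eventually.of_forall fun ε =>
    (h_cont.comp (continuous_id.add continuous_const)).continuousOn)
  have h1 : TendstoUniformlyOn (fun (ε : ℝ) x => h (x + ε)) (fun x => h (x + 0)) (𝓝 0)
      (Set.Icc 0 1) := by
    rw [tendstoUniformlyOn_iff_tendstoUniformly_comp_coe]
    refine Continuous.tendstoUniformly (fun (ε : ℝ) (x : Set.Icc (0 : ℝ) 1) => h (x + ε)) ?_ 0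
    exact h_cont.comp ((continuous_subtype_val.comp continuous_snd).add continuous_fst)
  simp only [add_zero] at h1
  exact fun u hu => ((h1.mono hs) u hu).filter_mono nhdsWithin_le_nhds

lemma h_ol {a b : A} (ha : IsSelfAdjoint a) (hs : spectrum ℝ a ⊆ Set.Icc 0 1)
    (hb : IsSelfAdjoint b) (ht : spectrum ℝ b ⊆ Set.Icc 0 1) :
    ‖cfc h a - cfc h b‖ ≤ 5 * ‖a - b‖ := by
  refine le_of_tendsto ((h_lim hs).sub (h_lim ht)).norm ?_
  filter_upwards [Ioc_mem_nhdsGT (show (0 : ℝ) < 1 by norm_num)] with ε hε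
  exact h_eps ha hs hb ht hε.1 hε.2

noncomputable def f (x : ℝ) : ℝ := x + h x + 2 * (x * x)

lemma f_cont : Continuous f := by
  have := h_cont
  unfold f
  fun_prop

lemma f_ol {a b : A} (ha : IsSelfAdjoint a) (hs : spectrum ℝ a ⊆ Set.Icc 0 1)
    (hb : IsSelfAdjoint b) (ht : spectrum ℝ b ⊆ Set.Icc 0 1) :
    ‖cfc f a - cfc f b‖ ≤ 10 * ‖a - b‖ := by
  have hc := h_cont
  have e : ∀ c : A, IsSelfAdjoint c → cfc f c = c + cfc h c + (2 : ℝ) • (c * c) := by
    intro c hc'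
    unfold f
    rw [cfc_add c _ _, cfc_add c _ _, cfc_const_mul _ _ c, cfc_mul _ _ c, cfc_id' ℝ c]
  have n : ∀ c : A, IsSelfAdjoint c → spectrum ℝ c ⊆ Set.Icc 0 1 → ‖c‖ ≤ 1 := by
    intro c hc' hs'
    rw [← cfc_id' ℝ c]
    refine norm_cfc_le (by norm_num) fun x hx => ?_
    rw [Real.norm_eq_abs, abs_le]
    constructor <;> linarith [(hs' hx).1, (hs' hx).2]
  have e2 : cfc f a - cfc f b =
      (a - b) + (cfc h a - cfc h b) + (2 : ℝ) • (a * (a - b) + (a - b) * b) := by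
    rw [e a ha, e b hb, mul_sub, sub_mul]
    simp only [smul_add, smul_sub]
    abel
  have b1 : ‖a * (a - b)‖ ≤ 1 * ‖a - b‖ :=
    (norm_mul_le _ _).trans (mul_le_mul_of_nonneg_right (n a ha hs) (norm_nonneg _))
  have b2 : ‖(a - b) * b‖ ≤ ‖a - b‖ * 1 :=
    (norm_mul_le _ _).trans (mul_le_mul_of_nonneg_left (n b hb ht) (norm_nonneg _))
  have b3 := norm_add_le_of_le b1 b2
  have b4 := h_ol ha hs hb ht
  rw [e2]
  refine norm_add₃_le.trans ?_
  rw [norm_smul, Real.norm_two]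
  linarith

end alg

lemma f_deriv {x : ℝ} (hx : x ≠ 0) :
    HasDerivAt f (1 + (2 * x * Real.sin x⁻¹ - Real.cos x⁻¹) + 4 * x) x := by
  have := ((hasDerivAt_id x).add (h_deriv hx)).add
    (((hasDerivAt_id x).mul (hasDerivAt_id x)).const_mul 2)
  refine this.congr_deriv ?_
  simp only [id]
  ring

lemma f_deriv0 : HasDerivAt f 1 0 := by
  have := ((hasDerivAt_id (0 : ℝ)).add h_deriv0).add
    (((hasDerivAt_id (0 : ℝ)).mul (hasDerivAt_id 0)).const_mul 2)
  refine this.congr_deriv ?_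
  simp

lemma f_ne (x : ℝ) (hx : x ∈ Set.Icc (0 : ℝ) 1) :
    ∃ d : ℝ, d ≠ 0 ∧ HasDerivWithinAt f d (Set.Icc 0 1) x := by
  rcases hx.1.eq_or_lt with h0 | h0
  · exact ⟨1, one_ne_zero, by rw [← h0]; exact f_deriv0.hasDerivWithinAt⟩
  · refine ⟨_, ne_of_gt ?_, (f_deriv h0.ne').hasDerivWithinAt⟩
    nlinarith [Real.neg_one_le_sin x⁻¹, Real.cos_le_one x⁻¹]

lemma f_mem {x : ℝ} (hx : x ∈ Set.Icc (0 : ℝ) (1 / 2)) : f x ∈ Set.uIcc (f 0) (f 1) := by
  have h0 : f 0 = 0 := by simp [f, h]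
  have h1 : 2 ≤ f 1 := by
    simp only [f, h]; nlinarith [Real.neg_one_le_sin (1 : ℝ)⁻¹]
  rw [h0, Set.uIcc_of_le (by linarith)]
  have a1 := Real.neg_one_le_sin x⁻¹
  have a2 := Real.sin_le_one x⁻¹
  have := hx.1
  have := hx.2
  have hs := sq_nonneg x
  constructor
  · simp only [f, h]; nlinarith
  · refine le_trans ?_ h1
    simp only [f, h]; nlinarith

lemma not_lip (C : ℝ) (hC : ∀ x ∈ Set.Icc (0 : ℝ) (1 / 2), ∀ y ∈ Set.Icc (0 : ℝ) (1 / 2),
    |x - y| ≤ C * |f x - f y|) : False := by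
  obtain ⟨k, hk⟩ := exists_nat_gt (|C| + 1)
  have hk1 : (1 : ℝ) < k := by linarith [abs_nonneg C]
  have hpi := Real.pi_gt_three
  set t : ℝ := k * (2 * Real.pi) with ht
  have ht6 : 6 * k < t := by nlinarith
  have ht0 : 0 < t := by linarith
  have hd := f_deriv (inv_pos.2 ht0).ne'
  rw [inv_inv, ht, Real.cos_nat_mul_two_pi] at hd
  have hs : Real.sin (k * (2 * Real.pi)) = 0 := by
    have := Real.sin_nat_mul_pi (2 * k)
    rw [← this]; congr 1; push_cast; ring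
  rw [hs, ← ht, hasDerivAt_iff_tendsto_slope] at hd
  have hlt : t⁻¹ < 1 / 2 := by
    rw [inv_lt_comm₀ ht0 (by norm_num)]; linarith
  have h1 : 1 ≤ C * |1 + (2 * t⁻¹ * 0 - 1) + 4 * t⁻¹| := by
    refine ge_of_tendsto (hd.abs.const_mul C) ?_
    filter_upwards [self_mem_nhdsWithin,
      nhdsWithin_le_nhds (Icc_mem_nhds (inv_pos.2 ht0) hlt)] with y hy hy2
    have := hC y hy2 t⁻¹ ⟨(inv_pos.2 ht0).le, hlt.le⟩
    have hp : 0 < |y - t⁻¹| := abs_pos.2 (sub_ne_zero.2 hy)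
    rw [slope_def_field, abs_div, ← mul_div_assoc, le_div_iff₀ hp]
    linarith
  have h2 : |1 + (2 * t⁻¹ * 0 - 1) + 4 * t⁻¹| = 4 / t := by
    rw [abs_of_pos (by have := inv_pos.2 ht0; linarith)]; ring
  rw [h2, ← mul_div_assoc, le_div_iff₀ ht0] at h1
  linarith [le_abs_self C, abs_nonneg C]

end Pool.Agent.H.MP_24fbf1_an
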